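import Pool.Agent.H49.FOS.S1

/-!
# FOS: the polynomial of a functional
-/

set_option autoImplicit false

namespace Pool.FOS

open MvPolynomial

namespace D1

/-- The exponent without the last variable. -/
noncomputable def res {q : ℕ} (k : Fin (q + 1) → ℕ) : Fin q →₀ ℕ :=
  Finsupp.equivFunOnFinite.symm fun i => k i.castSucc

/-- The exponent of a function. -/
noncomputable def full {q : ℕ} (k : Fin q → ℕ) : Fin q →₀ ℕ :=
  Finsupp.equivFunOnFinite.symm k

theorem prod_pow_eq {q : ℕ} (y : Fin q → ℂ) (k : Fin q → ℕ) :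
    ∏ i, (C (y i) * X i) ^ k i = monomial (full k) (∏ i, y i ^ k i) := by
  rw [monomial_eq, Finsupp.prod_fintype _ _ (by simp)]
  simp only [mul_pow, Finset.prod_mul_distrib, map_prod, map_pow]
  rfl

theorem pow_eq {q : ℕ} (y : Fin q → ℂ) (D : ℕ) :
    (∑ i, C (y i) * X i : MvPolynomial (Fin q) ℂ) ^ D =
      ∑ k ∈ Finset.piAntidiag Finset.univ D,
        monomial (full k) ((Nat.multinomial Finset.univ k : ℂ) * ∏ i, y i ^ k i) := by
  rw [Finset.sum_pow_eq_sum_piAntidiag]
  refine Finset.sum_congr rfl fun k _ => ?_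
  rw [prod_pow_eq]
  have : ((Nat.multinomial Finset.univ k : ℕ) : MvPolynomial (Fin q) ℂ) =
      C (Nat.multinomial Finset.univ k : ℂ) := by simp
  rw [this, C_mul_monomial]

theorem lin_eq {q : ℕ} (x : Fin q → ℂ) :
    (∑ i : Fin q, C (x i) * X i.castSucc + X (Fin.last q) : MvPolynomial (Fin (q + 1)) ℂ) =
      ∑ i : Fin (q + 1), C ((Fin.snoc x 1 : Fin (q + 1) → ℂ) i) * X i := by
  rw [Fin.sum_univ_castSucc]
  simp

theorem phi_monomial {q : ℕ} (φ : MvPolynomial (Fin q) ℂ →ₗ[ℂ] ℂ) (m : Fin q →₀ ℕ) (a : ℂ) :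
    φ (monomial m a) = a * φ (monomial m 1) := by
  rw [← smul_eq_mul, ← map_smul, smul_monomial, smul_eq_mul, mul_one]

/-- The polynomial. -/
noncomputable def pol {q : ℕ} (D : ℕ) (φ : MvPolynomial (Fin (q + 1)) ℂ →ₗ[ℂ] ℂ) :
    MvPolynomial (Fin q) ℂ :=
  ∑ k ∈ Finset.piAntidiag Finset.univ D,
    monomial (res k) ((Nat.multinomial Finset.univ k : ℂ) * φ (monomial (full k) 1))

theorem sum_res {q : ℕ} (k : Fin (q + 1) → ℕ) :
    (res k).degree + k (Fin.last q) = ∑ i, k i := by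
  rw [Fin.sum_univ_castSucc, Finsupp.degree_eq_sum]
  rfl

theorem pol_deg {q : ℕ} (D : ℕ) (φ : MvPolynomial (Fin (q + 1)) ℂ →ₗ[ℂ] ℂ) :
    (pol D φ).totalDegree ≤ D := by
  refine (totalDegree_finsetSum _ _).trans (Finset.sup_le fun k hk => ?_)
  rw [Finset.mem_piAntidiag] at hk
  refine (totalDegree_monomial_le _ _).trans ?_
  have h1 := sum_res k
  have h0 : ∑ i, k i = D := hk.1
  change (res k).degree ≤ D
  omega

theorem pol_eval {q : ℕ} (D : ℕ) (φ : MvPolynomial (Fin (q + 1)) ℂ →ₗ[ℂ] ℂ) (x : Fin q → ℂ) :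
    eval x (pol D φ) =
      φ ((∑ i : Fin q, C (x i) * X i.castSucc + X (Fin.last q)) ^ D) := by
  rw [lin_eq, pow_eq, pol, map_sum, map_sum]
  refine Finset.sum_congr rfl fun k _ => ?_
  rw [eval_monomial, phi_monomial φ (full k) (_ * _), Finsupp.prod_fintype _ _ (by simp),
    Fin.prod_univ_castSucc]
  simp only [Fin.snoc_castSucc, Fin.snoc_last, one_pow, mul_one]
  have : ∀ i, (res k) i = k i.castSucc := fun i => rfl
  simp only [this]
  ring

theorem res_inj {q D : ℕ} {k k' : Fin (q + 1) → ℕ} (hk : ∑ i, k i = D) (hk' : ∑ i, k' i = D)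
    (h : res k = res k') : k = k' := by
  have h1 : ∀ i : Fin q, k i.castSucc = k' i.castSucc := fun i => by
    have := DFunLike.congr_fun h i
    exact this
  have h2 : k (Fin.last q) = k' (Fin.last q) := by
    have a := sum_res k
    have b := sum_res k'
    rw [h] at a
    omega
  funext i
  refine Fin.lastCases h2 h1 i

theorem pol_zero {q : ℕ} (D : ℕ) (φ : MvPolynomial (Fin (q + 1)) ℂ →ₗ[ℂ] ℂ)
    (h : pol D φ = 0) (F : MvPolynomial (Fin (q + 1)) ℂ) (hF : F.IsHomogeneous D) : φ F = 0 := by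
  have key : ∀ k : Fin (q + 1) → ℕ, ∑ i, k i = D → φ (monomial (full k) 1) = 0 := by
    intro k hk
    have h1 : coeff (res k) (pol D φ) = 0 := by rw [h]; simp
    rw [pol, coeff_sum, Finset.sum_eq_single k] at h1
    · rw [coeff_monomial, if_pos rfl, mul_eq_zero] at h1
      rcases h1 with h1 | h1
      · exact absurd (Nat.cast_eq_zero.1 h1) (Nat.multinomial_pos _ _).ne'
      · exact h1
    · intro k' hk' hne
      rw [Finset.mem_piAntidiag] at hk'
      rw [coeff_monomial, if_neg]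
      exact fun hr => hne (res_inj hk'.1 hk hr)
    · intro hn
      exact absurd (Finset.mem_piAntidiag.2 ⟨hk, fun _ _ => Finset.mem_univ _⟩) hn
  rw [F.as_sum, map_sum]
  refine Finset.sum_eq_zero fun m hm => ?_
  rw [phi_monomial]
  have hd : ∑ i, m i = D := by
    have := hF (mem_support_iff.1 hm)
    rw [← this, Finsupp.weight_apply, Finsupp.sum_fintype _ _ (by simp)]
    simp
  have h2 : full (fun i => m i) = m := by ext i; rfl
  have := key (fun i => m i) hd
  rw [h2] at this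
  rw [this, mul_zero]

end D1

theorem t_du1 : DU1Stmt := fun _ k d φ =>
  ⟨D1.pol (k * d) φ, D1.pol_deg _ _, D1.pol_eval _ _, fun h F hF => D1.pol_zero _ _ h F hF⟩

end Pool.FOS
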