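import Pool.Agent.H27.FOS.DU1

/-!
# FOS: the multiplicity of the polynomial of a functional
-/

set_option autoImplicit false

namespace Pool.FOS

open MvPolynomial

namespace D1

/-- The term of degree `u` at the point `P`. -/
noncomputable def term {q : ℕ} (φ : MvPolynomial (Fin (q + 1)) ℂ →ₗ[ℂ] ℂ) (P : Fin q → ℂ)
    (G : MvPolynomial (Fin (q + 1)) ℂ) (u : ℕ) : MvPolynomial (Fin q) ℂ :=
  ∑ k ∈ Finset.piAntidiag (Finset.univ : Finset (Fin q)) u,
    C ((Nat.multinomial Finset.univ k : ℂ) * φ (G * ∏ i, X i.castSucc ^ k i)) *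
      ∏ i, (X i - C (P i)) ^ k i

theorem term_mem {q : ℕ} (φ : MvPolynomial (Fin (q + 1)) ℂ →ₗ[ℂ] ℂ) (P : Fin q → ℂ)
    (G : MvPolynomial (Fin (q + 1)) ℂ) (u : ℕ) : term φ P G u ∈ mI P ^ u := by
  refine Ideal.sum_mem _ fun k hk => Ideal.mul_mem_left _ _ ?_
  rw [Finset.mem_piAntidiag] at hk
  have h0 : ∑ i, k i = u := hk.1
  rw [← h0, ← Finset.prod_pow_eq_pow_sum]
  exact Ideal.prod_mem_prod fun i _ =>
    Ideal.pow_mem_pow (Ideal.subset_span (Set.mem_range_self i)) _

theorem term_eval {q : ℕ} (φ : MvPolynomial (Fin (q + 1)) ℂ →ₗ[ℂ] ℂ) (P : Fin q → ℂ)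
    (G : MvPolynomial (Fin (q + 1)) ℂ) (u : ℕ) (x : Fin q → ℂ) :
    eval x (term φ P G u) = φ (G * (∑ i : Fin q, C (x i - P i) * X i.castSucc) ^ u) := by
  rw [Finset.sum_pow_eq_sum_piAntidiag, Finset.mul_sum, map_sum, term, map_sum]
  refine Finset.sum_congr rfl fun k _ => ?_
  have h1 : G * (((Nat.multinomial Finset.univ k : ℕ) : MvPolynomial (Fin (q + 1)) ℂ) *
      ∏ i : Fin q, (C (x i - P i) * X i.castSucc) ^ k i) =
      ((Nat.multinomial Finset.univ k : ℂ) * ∏ i, (x i - P i) ^ k i) •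
        (G * ∏ i, X i.castSucc ^ k i) := by
    rw [smul_eq_C_mul]
    simp only [mul_pow, Finset.prod_mul_distrib, map_mul, map_prod, map_pow, map_natCast]
    ring
  rw [h1, map_smul, smul_eq_mul]
  simp only [map_mul, eval_C, map_prod, map_pow, map_sub, eval_X]
  ring

end D1

theorem t_du2 : DU2Stmt := by
  intro p k d φ A P hk hA hφ
  set L : MvPolynomial (Fin (p + 2)) ℂ :=
    ∑ i : Fin (p + 1), C (P i) * X i.castSucc + X (Fin.last (p + 1)) with hL
  have hLh : L.IsHomogeneous 1 := by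
    refine IsHomogeneous.add (IsHomogeneous.sum _ _ _ fun i _ => ?_) (isHomogeneous_X _ _)
    exact (isHomogeneous_X ℂ i.castSucc).C_mul (P i)
  have hA' : A = ∑ u ∈ Finset.Ico (d + 1) (k * d + 1),
      C ((k * d).choose u : ℂ) * D1.term φ P (L ^ (k * d - u)) u := by
    refine MvPolynomial.funext fun x => ?_
    rw [hA x]
    have h1 : (∑ i : Fin (p + 1), C (x i) * X i.castSucc + X (Fin.last (p + 1)) :
        MvPolynomial (Fin (p + 2)) ℂ) = (∑ i : Fin (p + 1), C (x i - P i) * X i.castSucc) + L := by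
      rw [hL, ← add_assoc, ← Finset.sum_add_distrib]
      congr 1
      refine Finset.sum_congr rfl fun i _ => ?_
      rw [map_sub]; ring
    rw [h1, add_pow, map_sum, map_sum]
    have h2 : ∀ u ∈ Finset.range (k * d + 1),
        φ ((∑ i : Fin (p + 1), C (x i - P i) * X i.castSucc) ^ u * L ^ (k * d - u) *
          (((k * d).choose u : ℕ) : MvPolynomial (Fin (p + 2)) ℂ)) =
        ((k * d).choose u : ℂ) *
          φ (L ^ (k * d - u) * (∑ i : Fin (p + 1), C (x i - P i) * X i.castSucc) ^ u) := by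
      intro u _
      have h : (∑ i : Fin (p + 1), C (x i - P i) * X i.castSucc) ^ u * L ^ (k * d - u) *
          (((k * d).choose u : ℕ) : MvPolynomial (Fin (p + 2)) ℂ) = ((k * d).choose u : ℂ) •
          (L ^ (k * d - u) * (∑ i : Fin (p + 1), C (x i - P i) * X i.castSucc) ^ u) := by
        rw [smul_eq_C_mul, map_natCast]
        ring
      rw [h, map_smul, smul_eq_mul]
    rw [Finset.sum_congr rfl h2]
    have h3 : ∀ u ∈ Finset.Ico (d + 1) (k * d + 1),
        eval x (C ((k * d).choose u : ℂ) * D1.term φ P (L ^ (k * d - u)) u) =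
        ((k * d).choose u : ℂ) *
          φ (L ^ (k * d - u) * (∑ i : Fin (p + 1), C (x i - P i) * X i.castSucc) ^ u) := by
      intro u _
      rw [map_mul, eval_C, D1.term_eval]
    rw [Finset.sum_congr rfl h3]
    symm
    refine Finset.sum_subset (fun u hu => ?_) (fun u hu hn => ?_)
    · rw [Finset.mem_Ico] at hu
      exact Finset.mem_range.2 hu.2
    · rw [Finset.mem_range] at hu
      have hu' : u ≤ d := by
        by_contra hc
        exact hn (Finset.mem_Ico.2 ⟨by omega, hu⟩)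
      have h4 : L ^ (k * d - u) * (∑ i : Fin (p + 1), C (x i - P i) * X i.castSucc) ^ u =
          L ^ ((k - 1) * d) *
            (L ^ (d - u) * (∑ i : Fin (p + 1), C (x i - P i) * X i.castSucc) ^ u) := by
        rw [← mul_assoc, ← pow_add]
        congr 2
        have : (k - 1) * d + d = k * d := by
          conv_rhs => rw [← Nat.sub_add_cancel hk]
          ring
        omega
      rw [h4, hφ, mul_zero]
      have h5 : (∑ i : Fin (p + 1), C (x i - P i) * X i.castSucc :
          MvPolynomial (Fin (p + 2)) ℂ).IsHomogeneous 1 :=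
        IsHomogeneous.sum _ _ _ fun i _ => (isHomogeneous_X ℂ i.castSucc).C_mul _
      have h6 := (hLh.pow (d - u)).mul (h5.pow u)
      have h7 : 1 * (d - u) + 1 * u = d := by omega
      rw [h7] at h6
      exact h6
  rw [hA']
  refine Ideal.sum_mem _ fun u hu => Ideal.mul_mem_left _ _ ?_
  exact Ideal.pow_le_pow_right (Finset.mem_Ico.1 hu).1 (D1.term_mem _ _ _ _)

end Pool.FOS
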